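import Pool.Agent.H31.DP.Targets2
import Pool.Agent.H98.KS.Asm
import Pool.Agent.H18.DP.DS
import Pool.Agent.H70.DP.MD
import Pool.Agent.H95.DP.OB
import Pool.Agent.H95.DP.UA
import Pool.Agent.H19.DP.UM
import Pool.Agent.H52.DP.DC
import Pool.Agent.H48.DP.ID
import Pool.Agent.H33.DP.MK
import Pool.Agent.H52.DP.PG
import Pool.Agent.H33.DP.SQ
import Pool.Agent.H56.DP.KA
import Pool.Agent.H34.DPT.KB
import Pool.Agent.H77.DP.LB
import Pool.Agent.H90.DP.GV
import Pool.Agent.H79.DP.CT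
import Pool.Agent.H34.DPT.CU
import Pool.Agent.H55.DP.DG
import Pool.Agent.H39.DP.ND
import Pool.Agent.H60.DP.GS
import Pool.Agent.H79.DP.CM
import Pool.Agent.H6.DP.SS
import Pool.Agent.H69.DP.T1
import Pool.Agent.H46.DP.MU
import Pool.Agent.H3.DP.FO
import Pool.Agent.H94.DP.TM
import Pool.Agent.H60.DP.PR
import Pool.Agent.H13.DP.M1
import Pool.Agent.H3.DP.M2
import Pool.Agent.H96.DP.MJ
import Pool.Agent.H86.DP.PV
import Pool.Agent.H49.DP.UH
import Pool.Agent.H42.DP.F1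
import Pool.Agent.H86.DP.S2
import Pool.Agent.H88.DP.F2
import Pool.Agent.H19.DP.PW
import Pool.Agent.H19.DP.F3

/-!
# Distant pairs and twisted correlations: assembly (MP_c59857_nt)
-/

set_option autoImplicit false

namespace Pool.Agent.H31.DP.All

open Pool.Agent.H31.DP

theorem x_DS : StatementDS := Pool.Agent.H18.DP.pf_DS

theorem x_MD : StatementMD := Pool.Agent.H70.DP.pf_MD x_DS

theorem x_OB : StatementOB := Pool.Agent.H95.DP.pf_OB

theorem x_UA : StatementUA := Pool.Agent.H95.DP.pf_UA x_OB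

theorem x_UM : StatementUM := Pool.Agent.H19.DP.pf_UM x_OB x_UA

theorem x_DC : StatementDC := Pool.Agent.H52.DP.pf_DC x_MD x_UM

theorem x_ID : StatementID := Pool.Agent.H48.DP.pf_ID

theorem x_MK : StatementMK := Pool.Agent.H33.DP.pf_MK x_OB x_ID x_DC

theorem x_PG : StatementPG := Pool.Agent.H52.DP.pf_PG

theorem x_SQ : StatementSQ := Pool.Agent.H33.DP.pf_SQ

theorem x_KA : StatementKA := Pool.Agent.H56.DP.pf_KA

theorem x_KB : StatementKB := Pool.Agent.H34.DPT.pf_KB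

theorem x_LB : StatementLB := Pool.Agent.H77.DP.pf_LB x_SQ x_KA x_KB

theorem x_GV : StatementGV := Pool.Agent.H90.DP.pf_GV

theorem x_CT : StatementCT := Pool.Agent.H79.DP.pf_CT x_GV

theorem x_CU : StatementCU := Pool.Agent.H34.DPT.pf_CU

theorem x_DG : StatementDG := Pool.Agent.H55.DP.pf_DG

theorem x_ND : StatementND := Pool.Agent.H39.DP.pf_ND

theorem x_GS : StatementGS := Pool.Agent.H60.DP.pf_GS

theorem x_CM : StatementCM := Pool.Agent.H79.DP.pf_CM x_CT x_CU x_DG x_ND x_GS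

theorem x_SS : StatementSS := Pool.Agent.H6.DP.pf_SS x_PG x_LB x_CM

theorem x_T1 : StatementT1 := Pool.Agent.H69.DP.pf_T1 x_MK x_SS

theorem x_MU : StatementMU := Pool.Agent.H46.DP.pf_MU

theorem x_FO : StatementFO := Pool.Agent.H3.DP.pf_FO

theorem x_TM : StatementTM := Pool.Agent.H94.DP.pf_TM x_T1 x_MU x_FO

theorem x_PR : StatementPR := Pool.Agent.H60.DP.pf_PR

theorem x_M1 : StatementM1 := Pool.Agent.H13.DP.pf_M1

theorem x_M2 : StatementM2 := Pool.Agent.H3.DP.pf_M2 x_PR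

theorem x_MJ : StatementMJ := Pool.Agent.H96.DP.pf_MJ x_M1 x_M2

theorem x_PV : StatementPV := Pool.Agent.H86.DP.pf_PV

theorem x_UH : StatementUH := Pool.Agent.H49.DP.pf_UH

theorem x_F1 : StatementF1 := Pool.Agent.H42.DP.pf_F1 x_TM x_PV x_UH

theorem x_S2 : StatementS2 := Pool.Agent.H86.DP.pf_S2 x_TM x_MJ

theorem x_F2 : StatementF2 := Pool.Agent.H88.DP.pf_F2 x_PV x_S2

theorem x_PW : StatementPW := Pool.Agent.H19.DP.PW.pf_PW Pool.Agent.H98.KS.a_WK

theorem x_F3 : StatementF3 := Pool.Agent.H19.DP.F3.pf_F3 x_PW x_S2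

end Pool.Agent.H31.DP.All
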