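import Pool.Agent.H91.LF.Defs3
import Pool.Agent.H24.T2.CubCS

/-!
Definitions for the project DP (distant pairs, twisted correlations) on `MP_c59857_nt`.
-/

set_option autoImplicit false

open Finset Filter Topology

namespace Pool.Agent.H31.DP

open Pool.Agent.H91.LF (lz Bdd Mean sqw)
open Pool.Agent.H24.T2 (Pset box cub)

/-- `ee x = exp (2 pi i x)`. -/
noncomputable def ee (x : ℝ) : ℂ := Complex.exp (2 * Real.pi * Complex.I * x)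

open Classical in
/-- The value `1` if `P` holds, else `0`. -/
noncomputable def ind (P : Prop) : ℝ := if P then 1 else 0

/-- The product of `lz` at the points `y + p * h i`. -/
noncomputable def FF {l : ℕ} (h : Fin l → ℕ) (p : ℕ) (y : ℤ) : ℝ :=
  ∏ i, lz (y + (p : ℤ) * (h i : ℤ))

/-- The product of `FF` at `y, y + s, y', y' + s` for `ω = (y, y', s)`. -/
noncomputable def G4 {l : ℕ} (h : Fin l → ℕ) (p : ℕ) (ω : Fin 3 → ℤ) : ℝ :=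
  FF h p (ω 0) * FF h p (ω 0 + ω 2) * (FF h p (ω 1) * FF h p (ω 1 + ω 2))

/-- The balanced function `p * 1_{p | z} - 1`. -/
noncomputable def bal (p : ℕ) (z : ℤ) : ℝ := (p : ℝ) * ind ((p : ℤ) ∣ z) - 1

/-- The decoupling defect on `ω = (y, y', s)`. -/
noncomputable def dd {l : ℕ} (h : Fin l → ℕ) (p : ℕ) (ω : Fin 3 → ℤ) : ℝ :=
  (p : ℝ) * ind ((p : ℤ) ∣ ω 2) * (bal p (ω 0) * bal p (ω 1) * G4 h p ω)

/-- The domain of the `(y, y', s)` with `y, y + s, y', y' + s` in `[1, M]`. -/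
noncomputable def Om (M : ℕ) : Finset (Fin 3 → ℤ) :=
  (Fintype.piFinset (fun _ : Fin 3 => Finset.Icc (-(M : ℤ)) M)).filter (fun ω =>
    (1 ≤ ω 0 ∧ ω 0 ≤ M) ∧ (1 ≤ ω 1 ∧ ω 1 ≤ M) ∧ (1 ≤ ω 0 + ω 2 ∧ ω 0 + ω 2 ≤ M) ∧
      (1 ≤ ω 1 + ω 2 ∧ ω 1 + ω 2 ≤ M))

/-- The finite averages: logarithmic in `M ∈ [x, y]`, uniform on `Om M`. -/
noncomputable def avo (x y : ℕ) (f : (Fin 3 → ℤ) → ℝ) : ℝ :=
  (∑ M ∈ Finset.Icc x y, (1 / (M : ℝ)) * ((∑ ω ∈ Om M, f ω) / ((Om M).card : ℝ))) /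
    ∑ M ∈ Finset.Icc x y, (1 / (M : ℝ))

/-- The `y` with `y` and `y + s` in `[1, M]`. -/
noncomputable def IM (M : ℕ) (s : ℤ) : Finset ℤ :=
  (Finset.Icc (1 : ℤ) M).filter (fun y => 1 ≤ y + s ∧ y + s ≤ M)

/-- The multiples of `D` in `[-M, M]`. -/
noncomputable def mul (D M : ℕ) : Finset ℤ := (Finset.Icc (-(M : ℤ)) M).filter (fun s => (D : ℤ) ∣ s)

/-- The correlation of `a` with its translate by `s` on `[1, M]`. -/
noncomputable def corr (a : ℤ → ℂ) (M : ℕ) (s : ℤ) : ℂ :=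
  ∑ y ∈ IM M s, (starRingEnd ℂ) (a y) * a (y + s)

/-- The sum of `a` over the `y ∈ [1, M]` congruent to `r` modulo `D`. -/
noncomputable def cls (a : ℤ → ℂ) (M D : ℕ) (r : ℕ) : ℂ :=
  ∑ y ∈ (Finset.Icc (1 : ℤ) M).filter (fun y => (D : ℤ) ∣ y - (r : ℤ)), a y

/-- The correlation of `FF h p` on `[1, M]`. -/
noncomputable def CA {l : ℕ} (h : Fin l → ℕ) (p M : ℕ) (s : ℤ) : ℝ :=
  ∑ y ∈ IM M s, FF h p y * FF h p (y + s)

/-- The balanced correlation of `FF h p` on `[1, M]`. -/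
noncomputable def TT {l : ℕ} (h : Fin l → ℕ) (p M : ℕ) (s : ℤ) : ℝ :=
  ∑ y ∈ IM M s, bal p y * (FF h p y * FF h p (y + s))

/-- The decoupling defect at the scale `M` (not normalised; of size at most `M ^ 3`). -/
noncomputable def DD {l : ℕ} (h : Fin l → ℕ) (p M : ℕ) : ℝ :=
  (p : ℝ) * ∑ s ∈ mul p M, (TT h p M s) ^ 2

/-- The twisted sum of `FF h 1`. -/
noncomputable def Sg {l : ℕ} (h : Fin l → ℕ) (N : ℕ) (θ : ℝ) : ℂ :=
  ∑ n ∈ Finset.Icc 1 N, ((FF h 1 (n : ℤ) : ℝ) : ℂ) * ee (n * θ)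

/-- The twisted sum of the correlations over the multiples of `Q`. -/
noncomputable def RC {l : ℕ} (h : Fin l → ℕ) (p Q M : ℕ) (θ : ℝ) : ℂ :=
  ∑ s ∈ mul Q M, ee (s * (θ / p)) * ((CA h p M s : ℝ) : ℂ)

/-- The minor arcs: `‖q θ‖ ≥ K / N` for all `1 ≤ q ≤ K`. -/
def Minor (K N : ℕ) (θ : ℝ) : Prop :=
  ∀ q : ℕ, 1 ≤ q → q ≤ K → ∀ a : ℤ, (K : ℝ) ≤ N * |(q : ℝ) * θ - a|

/-- The sum of `c` over the cubes of dimension `n` of `A` (with conjugations). -/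
noncomputable def Uc (X : ℕ) : (n : ℕ) → Finset ℤ → (ℤ → ℂ) → ℂ
  | 0, A, c => ∑ p ∈ A, c p
  | n + 1, A, c => ∑ t ∈ Finset.Icc (-(X : ℤ)) X,
      Uc X n (A.filter (fun p => p + t ∈ A)) (fun p => c p * (starRingEnd ℂ) (c (p + t)))

/-- The iterated difference of `φ` in the directions `t`. -/
def dl : (n : ℕ) → (Fin n → ℤ) → (ℤ → ℝ) → ℤ → ℝ
  | 0, _, φ => φ
  | n + 1, t, φ => dl n (Fin.tail t) (fun x => φ x - φ (x + t 0))

/-- The product of Chowla's conjecture. -/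
noncomputable def fm {r : ℕ} (β : Fin r → ℤ) (δ : Fin r → ℕ) (n : ℕ) : ℝ :=
  ∏ i, ((ArithmeticFunction.moebius (((n : ℤ) + β i).toNat) : ℤ) : ℝ) ^ δ i

/-- The twisted sum of `fm`. -/
noncomputable def Sm {r : ℕ} (β : Fin r → ℤ) (δ : Fin r → ℕ) (N : ℕ) (θ : ℝ) : ℂ :=
  ∑ n ∈ Finset.Icc 1 N, ((fm β δ n : ℝ) : ℂ) * ee (n * θ)

end Pool.Agent.H31.DP
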