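import Pool.Agent.H31.DP.Defs

/-!
Statements of the modules of the project DP (distant pairs, twisted correlations) on
`MP_c59857_nt`.
-/

set_option autoImplicit false

open Finset Filter Topology

namespace Pool.Agent.H31.DP

open Pool.Agent.H91.LF (lz Bdd Mean sqw)
open Pool.Agent.H24.T2 (Pset box cub)

/-! ## Part D: decoupling -/

/-- [DS] Decoupling for every subset of the coordinates. -/
def StatementDS : Prop :=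
  ∃ c₀ : ℝ, 0 < c₀ ∧ ∀ (d : ℕ) (M : Mean d) (A : Type) (_ : Fintype A)
    (x : (Fin d → ℤ) → A) (e : Fin d → ℤ) (R : ℕ) (θ : ℝ) (m₀ : ℕ), 0 < R → 0 < θ →
    ∃ m, m₀ ≤ m ∧ c₀ * 2 ^ m / m ≤ ((Pset 1 m).card : ℝ) ∧
      ∀ (S : Finset (Fin d)) (g : ℕ → (Fin d → ℤ) → ℝ),
        (∀ p ∈ Pset 1 m, ∀ ω, |g p ω| ≤ 1) →
        (∀ p ∈ Pset 1 m, ∀ ω ω' : Fin d → ℤ,
          (∀ j : ℕ, j < R * 2 ^ m → x (ω + (j : ℤ) • e) = x (ω' + (j : ℤ) • e)) →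
          ∀ k : Fin d → ℤ, (∀ i, 0 ≤ k i ∧ k i < p) → g p (ω + k) = g p (ω' + k)) →
        ∑ p ∈ Pset 1 m,
          |M.E (fun ω => (p : ℝ) ^ S.card * (ind (∀ i ∈ S, (p : ℤ) ∣ ω i) * g p ω)) - M.E (g p)| ≤
          θ * (Pset 1 m).card

/-- [MD] The mean level theorem. -/
def StatementMD : Prop :=
  ∃ c₀ : ℝ, 0 < c₀ ∧ ∀ (l : ℕ) (h : Fin l → ℕ) (M : Mean 3) (θ : ℝ) (m₀ : ℕ), 0 < θ →
    ∃ m, m₀ ≤ m ∧ c₀ * 2 ^ m / m ≤ ((Pset 1 m).card : ℝ) ∧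
      ∑ p ∈ Pset 1 m, |M.E (dd h p)| ≤ θ * (Pset 1 m).card

/-- [OB] The size and the boundary of the domain. -/
def StatementOB : Prop :=
  (∀ M : ℕ, 0 < M → (M : ℝ) ^ 3 / 8 ≤ ((Om M).card : ℝ) ∧ ((Om M).card : ℝ) ≤ 3 * (M : ℝ) ^ 3) ∧
  ∀ v : Fin 3 → ℤ, ∃ C : ℝ, ∀ M : ℕ, 0 < M → ∀ (f : (Fin 3 → ℤ) → ℝ) (B : ℝ),
    (∀ ω, |f ω| ≤ B) →
      |∑ ω ∈ Om M, f (ω + v) - ∑ ω ∈ Om M, f ω| ≤ C * B * (M : ℝ) ^ 2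

/-- [UA] Asymptotic translation invariance of the finite averages. -/
def StatementUA : Prop :=
  ∀ (x y : ℕ → ℕ), (∀ j, 0 < x j) →
    Tendsto (fun j => Real.log ((y j : ℝ) / x j)) atTop atTop →
    ∀ (v : Fin 3 → ℤ) (f : (Fin 3 → ℤ) → ℝ), Bdd f →
      Tendsto (fun j => avo (x j) (y j) (fun ω => f (ω + v)) - avo (x j) (y j) f) atTop (𝓝 0)

/-- [UM] The limit mean. -/
def StatementUM : Prop :=
  ∀ (x y : ℕ → ℕ), (∀ j, 0 < x j) →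
    Tendsto (fun j => Real.log ((y j : ℝ) / x j)) atTop atTop →
    ∃ M : Mean 3, ∀ (f : (Fin 3 → ℤ) → ℝ) (ρ : ℝ), Bdd f →
      (∀ᶠ j in atTop, ρ ≤ avo (x j) (y j) f) → ρ ≤ M.E f

/-- [DC] The finite form of the decoupling. -/
def StatementDC : Prop :=
  ∃ c₀ : ℝ, 0 < c₀ ∧ ∀ (l : ℕ) (h : Fin l → ℕ) (θ : ℝ) (m₀ : ℕ), 0 < θ →
    ∃ m₁ K : ℕ, ∀ x y : ℕ, 0 < x → K * x ≤ y →
      ∃ m, m₀ ≤ m ∧ m ≤ m₁ ∧ c₀ * 2 ^ m / m ≤ ((Pset 1 m).card : ℝ) ∧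
        ∑ p ∈ Pset 1 m, avo x y (dd h p) ≤ θ * (Pset 1 m).card

/-- [ID] The sum of the defect over the domain is a sum of squares. -/
def StatementID : Prop :=
  ∀ (l : ℕ) (h : Fin l → ℕ) (p M : ℕ), 0 < p → ∑ ω ∈ Om M, dd h p ω = DD h p M

/-- [MK] Most scales have a small defect. -/
def StatementMK : Prop :=
  ∃ c₀ : ℝ, 0 < c₀ ∧ ∀ (l : ℕ) (h : Fin l → ℕ) (θ ρ : ℝ) (m₀ : ℕ), 0 < θ → 0 < ρ →
    ∃ m₁ K : ℕ, ∀ x y : ℕ, 0 < x → K * x ≤ y →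
      ∃ m, m₀ ≤ m ∧ m ≤ m₁ ∧ c₀ * 2 ^ m / m ≤ ((Pset 1 m).card : ℝ) ∧
        ∑ M ∈ (Finset.Icc x y).filter (fun M : ℕ =>
          θ * (Pset 1 m).card * (M : ℝ) ^ 3 < ∑ p ∈ Pset 1 m, DD h p M), (1 / (M : ℝ)) ≤
          ρ * Real.log ((y : ℝ) / x)

/-! ## Part C: a single scale -/

/-- [PG] Pigeonhole. -/
def StatementPG : Prop :=
  ∀ (A : Finset ℕ) (m L : ℕ), 0 < L → (∀ p ∈ A, 2 ^ m < p ∧ p ≤ 2 ^ (m + 1)) →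
    ∃ P : ℕ, 2 ^ m ≤ P ∧ P ≤ 2 ^ (m + 1) ∧
      (A.card : ℝ) * L ≤ (2 ^ m + L) * ((A.filter (fun p => P < p ∧ p ≤ P + L)).card : ℝ)

/-- [SQ] The square of a twisted sum. -/
def StatementSQ : Prop :=
  ∀ (l : ℕ) (h : Fin l → ℕ) (p M : ℕ) (θ : ℝ), p.Prime →
    ((‖Sg h (M / p) θ‖ ^ 2 : ℝ) : ℂ) = ∑ s ∈ mul p M, ee (s * (θ / p)) *
      ((∑ y ∈ (IM M s).filter (fun y => (p : ℤ) ∣ y), FF h p y * FF h p (y + s) : ℝ) : ℂ)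

/-- [KA] The sum over the residue classes. -/
def StatementKA : Prop :=
  ∀ (a : ℤ → ℂ) (M D : ℕ), 0 < D →
    ((∑ r ∈ Finset.range D, ‖cls a M D r‖ ^ 2 : ℝ) : ℂ) = ∑ s ∈ mul D M, corr a M s

/-- [KB] Refining the residue classes. -/
def StatementKB : Prop :=
  ∀ (a : ℤ → ℂ) (M p Q : ℕ), 0 < Q → p ∣ Q →
    ∑ r ∈ Finset.range p, ‖cls a M p r‖ ^ 2 ≤
      ((Q : ℝ) / p) * ∑ r ∈ Finset.range Q, ‖cls a M Q r‖ ^ 2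

/-- [LB] The comparison of the twisted sum with the correlations over the multiples of `Q`. -/
def StatementLB : Prop :=
  ∀ (l : ℕ) (h : Fin l → ℕ) (p Q M : ℕ) (θ : ℝ), p.Prime → p ∣ Q → 0 < Q → p ≤ M →
    (p : ℝ) ^ 2 * ‖Sg h (M / p) θ‖ ^ 2 ≤
      Q * (RC h p Q M θ).re + Real.sqrt (3 * M * DD h p M)

/-- [GV] The generalised von Neumann inequality on a finite group. -/
def StatementGV : Prop :=
  ∀ (Z : Type) [AddCommGroup Z] [Fintype Z] (n L X : ℕ) (J : Finset Z)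
    (G : Fin (n + 1) → Z → ℂ) (h : Fin (n + 1) → Z) (A : Finset ℤ) (c : ℤ → ℂ),
    J.card ≤ L → (∀ i z, ‖G i z‖ ≤ 1) → (∀ i z, z ∉ J → G i z = 0) →
    (∀ p ∈ A, ∀ q ∈ A, |p - q| ≤ (X : ℤ)) →
    ‖∑ p ∈ A, c p * ∑ y : Z, ∏ i, G i (y + p • h i)‖ ^ (2 ^ (n + 1)) ≤
      (L : ℝ) ^ (2 ^ (n + 1)) * (2 * X + 1) ^ (2 ^ (n + 1) - (n + 2)) * (Uc X (n + 1) A c).re

/-- [CT] The generalised von Neumann inequality for the correlations. -/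
def StatementCT : Prop :=
  ∀ (l : ℕ) (h : Fin l → ℕ) (A : Finset ℕ) (B X M : ℕ) (s : ℤ) (θ : ℝ),
    (∀ p ∈ A, ∀ i, p * h i ≤ B) → (∀ p ∈ A, ∀ q ∈ A, |(p : ℤ) - q| ≤ (X : ℤ)) →
    ‖∑ p ∈ A, ee (s * (θ / p)) * ((CA h p M s : ℝ) : ℂ)‖ ^ (2 ^ (l + 1)) ≤
      ((M : ℝ) + B) ^ (2 ^ (l + 1)) * (2 * X + 1) ^ (2 ^ (l + 1) - (l + 2)) *
        (Uc X (l + 1) (A.map Nat.castEmbedding) (fun p => ee (s * (θ / p)))).re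

/-- [CU] The expansion over the cubes. -/
def StatementCU : Prop :=
  ∀ (X n : ℕ) (A : Finset ℤ) (φ : ℤ → ℝ) (s : ℝ),
    Uc X n A (fun p => ee (s * φ p)) = ∑ t ∈ box n X, ∑ p ∈ cub n A t, ee (s * dl n t φ p)

/-- [DG] The number of cubes and of degenerate cubes. -/
def StatementDG : Prop :=
  ∀ (X n : ℕ) (A : Finset ℤ), 0 < n →
    ∑ t ∈ box n X, ((cub n A t).card : ℝ) ≤ A.card * (2 * X + 1) ^ n ∧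
    ∑ t ∈ (box n X).filter (fun t => ∃ i, t i = 0), ((cub n A t).card : ℝ) ≤
      n * A.card * (2 * X + 1) ^ (n - 1)

/-- [ND] The iterated difference of `1 / x` over a nondegenerate cube is not zero. -/
def StatementND : Prop :=
  ∀ (n B : ℕ) (A : Finset ℤ) (t : Fin n → ℤ) (p : ℤ), (∀ a ∈ A, 0 < a ∧ a ≤ (B : ℤ)) →
    (∀ i, t i ≠ 0) → p ∈ cub n A t →
    ∃ (a : ℤ) (b : ℕ), a ≠ 0 ∧ 0 < b ∧ b ≤ B ^ (2 ^ n) ∧ |a| ≤ 2 ^ n * (B : ℤ) ^ (2 ^ n) ∧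
      dl n t (fun x => 1 / (x : ℝ)) p = (a : ℝ) / b

/-- [GS] Geometric sums on the minor arcs. -/
def StatementGS : Prop :=
  ∀ (K M Q b : ℕ) (a : ℤ) (θ : ℝ), Minor K M θ → a ≠ 0 → 0 < b → 0 < Q → 0 < K →
    (Q : ℤ) * |a| ≤ (K : ℤ) →
    ‖∑ s ∈ mul Q M, ee (s * (θ * (a / b)))‖ ≤ (b : ℝ) * M / K

/-- [CM] Many large twisted sums of correlations are impossible on the minor arcs. -/
def StatementCM : Prop :=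
  ∀ (l : ℕ) (h : Fin l → ℕ) (c τ : ℝ) (A : Finset ℕ) (X Q : ℕ), 0 < c → 0 < τ → 0 < Q →
    (∀ p ∈ A, 0 < p) → (∀ p ∈ A, ∀ q ∈ A, |(p : ℤ) - q| ≤ (X : ℤ)) →
    ∃ K : ℕ, ∀ M : ℕ, K ≤ M → ∀ θ : ℝ, Minor K M θ →
      (∀ p ∈ A, c * (M : ℝ) ^ 2 ≤ Q * (RC h p Q M θ).re) →
      (c * A.card) ^ (2 ^ (l + 1)) ≤
        6 ^ (2 ^ (l + 1)) * A.card * (2 * X + 1) ^ (2 ^ (l + 1) - 2) *
          (3 * (l + 1) + τ * (2 * X + 1))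

/-- [SS] A scale with a small defect: the minor arcs. -/
def StatementSS : Prop :=
  ∀ (l : ℕ) (h : Fin l → ℕ) (ε c₀ : ℝ), 0 < ε → ε ≤ 1 → 0 < c₀ →
    ∃ θ : ℝ, 0 < θ ∧ ∃ m₀ : ℕ, ∀ m, m₀ ≤ m → c₀ * 2 ^ m / m ≤ ((Pset 1 m).card : ℝ) →
      ∃ P : ℕ, 0 < P ∧ P ≤ 2 ^ (m + 1) ∧ ∃ K : ℕ, ∀ M N : ℕ, K ≤ N → M / P = N →
        ∑ p ∈ Pset 1 m, DD h p M ≤ θ * (Pset 1 m).card * (M : ℝ) ^ 3 →
        ∀ ϑ : ℝ, Minor K N ϑ → ‖Sg h N ϑ‖ ≤ ε * N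

open Classical in
/-- [T1] The minor arcs for the Liouville function. -/
def StatementT1 : Prop :=
  ∀ (l : ℕ) (h : Fin l → ℕ) (ε ρ : ℝ), 0 < ε → 0 < ρ →
    ∃ K : ℕ, ∀ x y : ℕ, 0 < x → K * x ≤ y →
      ∑ N ∈ (Finset.Icc x y).filter (fun N : ℕ => ∃ θ : ℝ, Minor K N θ ∧ ε * N < ‖Sg h N θ‖),
        (1 / (N : ℝ)) ≤ ρ * Real.log ((y : ℝ) / x)

/-! ## Part U: from the Liouville to the Möbius function -/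

/-- [MU] Approximation of the Möbius product in the mean. -/
def StatementMU : Prop :=
  ∀ (r : ℕ) (β : Fin r → ℤ) (δ : Fin r → ℕ) (η : ℝ), (∀ i, 1 ≤ δ i) → 0 < η →
    ∃ w N₀ : ℕ, ∀ N, N₀ ≤ N →
      ∑ n ∈ Finset.Icc 1 N, |fm β δ n - (∏ i ∈ Finset.univ.filter (fun i => Odd (δ i)),
        lz ((n : ℤ) + β i)) * ∏ i, sqw w ((n : ℤ) + β i)| ≤ η * N

/-- [FO] Periodic weights on the minor arcs. -/
def StatementFO : Prop :=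
  (∀ (a u : ℕ → ℂ) (q N : ℕ) (B θ : ℝ), 0 < q → (∀ n, u (n + q) = u n) → (∀ n, ‖u n‖ ≤ 1) →
    (∀ j : ℕ, j < q → ‖∑ n ∈ Finset.Icc 1 N, a n * ee (n * (θ + j / q))‖ ≤ B) →
    ‖∑ n ∈ Finset.Icc 1 N, a n * u n * ee (n * θ)‖ ≤ q * B) ∧
  ∀ (K N q j : ℕ) (θ : ℝ), 0 < q → Minor (K * q) N θ → Minor K N (θ + j / q)

open Classical in
/-- [TM] The minor arcs for the Möbius function with exponents, every order. -/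
def StatementTM : Prop :=
  ∀ (r : ℕ) (β : Fin r → ℤ) (δ : Fin r → ℕ) (ε ρ : ℝ), (∀ i, 1 ≤ δ i) → 0 < ε → 0 < ρ →
    ∃ K : ℕ, ∀ x y : ℕ, 0 < x → K * x ≤ y →
      ∑ N ∈ (Finset.Icc x y).filter (fun N : ℕ => ∃ θ : ℝ, Minor K N θ ∧ ε * N < ‖Sm β δ N θ‖),
        (1 / (N : ℝ)) ≤ ρ * Real.log ((y : ℝ) / x)

/-! ## Part M: major arcs -/

/-- The pairs: all exponents are positive, the shifts are distinct, one or two exponents are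
odd. -/
def Pair {r : ℕ} (β : Fin r → ℤ) (δ : Fin r → ℕ) : Prop :=
  (∀ i, 1 ≤ δ i) ∧ Function.Injective β ∧
    ((Finset.univ.filter (fun i => Odd (δ i))).card = 1 ∨
      (Finset.univ.filter (fun i => Odd (δ i))).card = 2)

/-- [PR] Pairs in residue classes, on average over the scales. -/
def StatementPR : Prop :=
  ∀ (r : ℕ) (β : Fin r → ℤ) (δ : Fin r → ℕ) (q n₀ : ℕ) (ρ : ℝ), Pair β δ → 0 < q → 0 < ρ →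
    ∃ K : ℕ, ∀ x y : ℕ, 0 < x → K * x ≤ y →
      ∑ N ∈ Finset.Icc x y, (1 / (N : ℝ)) *
        |(∑ n ∈ (Finset.Icc 1 N).filter (fun n : ℕ => n ≡ n₀ [MOD q]), fm β δ n) / N| ≤
        ρ * Real.log ((y : ℝ) / x)

/-- [M1] Major arcs, a single scale. -/
def StatementM1 : Prop :=
  ∀ (f : ℕ → ℂ), (∀ n, ‖f n‖ ≤ 1) → ∀ (K J N : ℕ) (η : ℝ), 0 < K → 0 < J → 0 < N →
    (∀ q : ℕ, 1 ≤ q → q ≤ K → ∀ n₀ : ℕ, n₀ < q → ∀ i : ℕ, i ≤ J →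
      ‖∑ n ∈ (Finset.Icc 1 (i * N / J)).filter (fun n : ℕ => n ≡ n₀ [MOD q]), f n‖ ≤ η * N) →
    ∀ θ : ℝ, ¬ Minor K N θ →
      ‖∑ n ∈ Finset.Icc 1 N, f n * ee (n * θ)‖ ≤
        (1 + 2 * Real.pi * K) * (K * η * N + N / J + 1)

open Classical in
/-- [M2] The bad scales for the grid of initial segments and the residue classes. -/
def StatementM2 : Prop :=
  ∀ (r : ℕ) (β : Fin r → ℤ) (δ : Fin r → ℕ) (L J : ℕ) (η ρ : ℝ), Pair β δ → 0 < J → 0 < η →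
    0 < ρ → ∃ K : ℕ, ∀ x y : ℕ, 0 < x → K * x ≤ y →
      ∑ N ∈ (Finset.Icc x y).filter (fun N : ℕ => ∃ q : ℕ, 1 ≤ q ∧ q ≤ L ∧ ∃ n₀ : ℕ, n₀ < q ∧
        ∃ i : ℕ, i ≤ J ∧ η * N <
          |∑ n ∈ (Finset.Icc 1 (i * N / J)).filter (fun n : ℕ => n ≡ n₀ [MOD q]), fm β δ n|),
        (1 / (N : ℝ)) ≤ ρ * Real.log ((y : ℝ) / x)

open Classical in
/-- [MJ] The major arcs for pairs. -/
def StatementMJ : Prop :=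
  ∀ (r : ℕ) (β : Fin r → ℤ) (δ : Fin r → ℕ) (L : ℕ) (ε ρ : ℝ), Pair β δ → 0 < ε → 0 < ρ →
    ∃ K : ℕ, ∀ x y : ℕ, 0 < x → K * x ≤ y →
      ∑ N ∈ (Finset.Icc x y).filter (fun N : ℕ => ∃ θ : ℝ, ¬ Minor L N θ ∧ ε * N < ‖Sm β δ N θ‖),
        (1 / (N : ℝ)) ≤ ρ * Real.log ((y : ℝ) / x)

/-! ## Part F: the form with an arbitrary function -/

/-- [PV] Parseval. -/
def StatementPV : Prop :=
  ∀ (F u : ℕ → ℂ) (N : ℕ) (E : ℝ), (∀ n, ‖F n‖ ≤ 1) →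
    (∀ θ : ℝ, ‖∑ m ∈ Finset.Icc 1 (2 * N), u m * ee (m * θ)‖ ≤ E) →
    ∑ t ∈ Finset.Icc 1 N, ‖∑ n ∈ Finset.Icc 1 N, F n * u (n + t)‖ ^ 2 ≤ N * E ^ 2

/-- [UH] The smoothed function. -/
def StatementUH : Prop :=
  (∀ (f : ℕ → ℂ) (N q J : ℕ) (θ : ℝ), (∀ n, ‖f n‖ ≤ 1) → 0 < J →
    ‖∑ m ∈ Finset.Icc 1 (2 * N), (f m - (∑ j ∈ Finset.Icc 1 J, f (m + q * j)) / J) * ee (m * θ)‖ ≤
      ‖∑ m ∈ Finset.Icc 1 (2 * N), f m * ee (m * θ)‖ *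
        ‖1 - (∑ j ∈ Finset.Icc 1 J, ee (-(q * j * θ))) / J‖ + 2 * q * J) ∧
  ∀ (K N q J : ℕ) (θ : ℝ), (∀ q' : ℕ, 1 ≤ q' → q' ≤ K → q' ∣ q) → 0 < N → 0 < J →
    ¬ Minor K (2 * N) θ →
    ‖1 - (∑ j ∈ Finset.Icc 1 J, ee (-(q * j * θ))) / J‖ ≤ Real.pi * J * q * K / N

open Classical in
/-- [F1] Every order: the correlation is close to its mean along an arithmetic progression. -/
def StatementF1 : Prop :=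
  ∀ (r : ℕ) (β : Fin r → ℤ) (δ : Fin r → ℕ) (η ρ : ℝ), (∀ i, 1 ≤ δ i) → 0 < η → 0 < ρ →
    ∃ q L K : ℕ, 0 < q ∧ 0 < L ∧ ∀ x y : ℕ, 0 < x → K * x ≤ y →
      ∑ N ∈ (Finset.Icc x y).filter (fun N : ℕ => ∃ F : ℕ → ℂ, (∀ n, ‖F n‖ ≤ 1) ∧
        η * N < (((Finset.Icc 1 N).filter (fun t : ℕ => η * N <
          ‖∑ n ∈ Finset.Icc 1 N, F n * ((fm β δ (n + t) -
            (∑ j ∈ Finset.Icc 1 (N / L), fm β δ (n + t + q * j)) / (N / L : ℕ) : ℝ) : ℂ)‖)).card : ℝ)),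
        (1 / (N : ℝ)) ≤ ρ * Real.log ((y : ℝ) / x)

open Classical in
/-- [F2] Pairs: the correlation with an arbitrary function vanishes at almost all distances. -/
def StatementF2 : Prop :=
  ∀ (r : ℕ) (β : Fin r → ℤ) (δ : Fin r → ℕ) (η ρ : ℝ), Pair β δ → 0 < η → 0 < ρ →
    ∃ K : ℕ, ∀ x y : ℕ, 0 < x → K * x ≤ y →
      ∑ N ∈ (Finset.Icc x y).filter (fun N : ℕ => ∃ F : ℕ → ℂ, (∀ n, ‖F n‖ ≤ 1) ∧
        η * N < (((Finset.Icc 1 N).filter (fun t : ℕ => η * N <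
          ‖∑ n ∈ Finset.Icc 1 N, F n * ((fm β δ (n + t) : ℝ) : ℂ)‖)).card : ℝ)),
        (1 / (N : ℝ)) ≤ ρ * Real.log ((y : ℝ) / x)

open Classical in
/-- [S2] Pairs: the supremum over all frequencies. -/
def StatementS2 : Prop :=
  ∀ (r : ℕ) (β : Fin r → ℤ) (δ : Fin r → ℕ) (ε ρ : ℝ), Pair β δ → 0 < ε → 0 < ρ →
    ∃ K : ℕ, ∀ x y : ℕ, 0 < x → K * x ≤ y →
      ∑ N ∈ (Finset.Icc x y).filter (fun N : ℕ => ∃ θ : ℝ, ε * N < ‖Sm β δ N θ‖),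
        (1 / (N : ℝ)) ≤ ρ * Real.log ((y : ℝ) / x)

end Pool.Agent.H31.DP
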