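import Pool.Agent.H31.DP.Targets

/-!
Statements of the modules of the project DP on `MP_c59857_nt`: polynomial distances.
-/

set_option autoImplicit false

open Finset Filter Topology

namespace Pool.Agent.H31.DP

/-- The product of Chowla's conjecture at an integer. -/
noncomputable def fz {r : ℕ} (β : Fin r → ℤ) (δ : Fin r → ℕ) (m : ℤ) : ℝ :=
  ∏ i, ((ArithmeticFunction.moebius ((m + β i).toNat) : ℤ) : ℝ) ^ δ i

/-- [PW] The form with an arbitrary function along the values of a polynomial. -/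
def StatementPW : Prop :=
  ∀ (P : Polynomial ℤ) (C : ℕ) (η : ℝ), 0 < P.natDegree → 0 < η →
    ∃ ε : ℝ, 0 < ε ∧ ∃ N₀ : ℕ, ∀ N : ℕ, N₀ ≤ N → ∀ (F : ℕ → ℂ) (u : ℤ → ℂ), (∀ n, ‖F n‖ ≤ 1) →
      (∀ m, ‖u m‖ ≤ 1) → (∀ m, u m ≠ 0 → |m| ≤ (C * N : ℕ)) →
      (∀ θ : ℝ, ‖∑ m ∈ Finset.Icc (-((C * N : ℕ) : ℤ)) ((C * N : ℕ) : ℤ), u m * ee (m * θ)‖ ≤
        ε * N) →
      ∑ t ∈ (Finset.Icc 1 N).filter (fun t : ℕ => t ^ P.natDegree ≤ N),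
        ‖∑ n ∈ Finset.Icc 1 N, F n * u (n + P.eval (t : ℤ))‖ ^ 2 ≤
        η * (N : ℝ) ^ 2 * (N : ℝ) ^ ((1 : ℝ) / P.natDegree)

open Classical in
/-- [F3] Pairs at polynomial distances. -/
def StatementF3 : Prop :=
  ∀ (r : ℕ) (β : Fin r → ℤ) (δ : Fin r → ℕ) (P : Polynomial ℤ) (η ρ : ℝ), Pair β δ →
    0 < P.natDegree → 0 < η → 0 < ρ →
    ∃ K : ℕ, ∀ x y : ℕ, 0 < x → K * x ≤ y →
      ∑ N ∈ (Finset.Icc x y).filter (fun N : ℕ => ∃ F : ℕ → ℂ, (∀ n, ‖F n‖ ≤ 1) ∧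
        η * (N : ℝ) ^ ((1 : ℝ) / P.natDegree) <
          (((Finset.Icc 1 N).filter (fun t : ℕ => t ^ P.natDegree ≤ N ∧ η * N <
          ‖∑ n ∈ Finset.Icc 1 N, F n * ((fz β δ (n + P.eval (t : ℤ)) : ℝ) : ℂ)‖)).card : ℝ)),
        (1 / (N : ℝ)) ≤ ρ * Real.log ((y : ℝ) / x)

end Pool.Agent.H31.DP
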